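import Mathlib
import Pool.Agent.Q64.U.Defs

/-!
# Algebraic K-groups of the products with abelian varieties: definitions
-/

set_option autoImplicit false

namespace Pool.Agent.Q64.KG

open Polynomial Pool.Agent.Y156.L Pool.Agent.Q64.L Pool.Agent.Q64.U

/-- Data of algebraic K-theory: the groups `KN m = K_m (Z)` and `KM m = K_m (A × Z)` and the maps of
the groups of sequences of their elements to the theory `T`. -/
structure KData {K : Type} [Field K] {A : AbelianData K} (T : RelData A) where
  /-- the K-groups of `Z` -/
  KN : ℕ → Type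
  [groupN : ∀ m, AddCommGroup (KN m)]
  /-- the K-groups of `A × Z` -/
  KM : ℕ → Type
  [groupM : ∀ m, AddCommGroup (KM m)]
  /-- sequences of elements of the K-groups of `Z` -/
  uN : ∀ m, (ℕ → KN m) →+ T.N
  /-- sequences of elements of the K-groups of `A × Z` -/
  uM : ∀ m, (ℕ → KM m) →+ T.M

attribute [instance] KData.groupN KData.groupM

section

variable {K : Type} [Field K] {A : AbelianData K} {T : RelData A}

/-- The map `φ` from `K_m (Z)` to `K_m (A × Z)` is the exterior product with a positive multiple of
`x`, more precisely with an element of `K_0 (A)` whose Chern character is this multiple of `x`. -/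
def KData.IsProduct (U : KData T) (x : A.CH) (m : ℕ) (φ : U.KN m →+ U.KM m) : Prop :=
  ∃ n : ℕ, 0 < n ∧ ∀ z : ℕ → U.KN m, U.uM m (fun i => φ (z i)) = n • T.times x (U.uN m z)

/-- `T` is the sum of the tensor products with `ℚ` of the groups of sequences in the K-groups; the part
of Adams weight `j` of the theory given by `K_m` has the bidegree `(2 j - m, j)`. Each cycle on `A`
has a positive multiple which is the Chern character of an element of `K_0 (A)`. As `A` has a
rational point, `K_m (Z)` is a direct factor of `K_m (A × Z)`. The variety `Z` has dimension `d`, and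
the groups `K_m (A × Z) / n` are finite if `m ≥ dim A + d`. -/
structure IsKTheory (d : ℕ) (U : KData T) : Prop where
  hullN : ∀ m : ℕ, IsHull (U.KN m) (⨆ j : ℤ, T.grN (2 * j - m) j) (U.uN m)
  hullM : ∀ m : ℕ, IsHull (U.KM m) (⨆ j : ℤ, T.grM (2 * j - m) j) (U.uM m)
  product : ∀ (m : ℕ) (x : A.CH), ∃ φ : U.KN m →+ U.KM m, U.IsProduct x m φ
  factor : ∀ m : ℕ, ∃ (i : U.KN m →+ U.KM m) (r : U.KM m →+ U.KN m), ∀ z, r (i z) = z
  finite : ∀ m : ℕ, A.dim + d ≤ m → ∀ n : ℕ, 0 < n →
    ∃ S : Finset (U.KM m), ∀ y, ∃ s ∈ S, ∃ y', y = s + n • y'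

/-- The Kunneth formula up to groups of bounded exponent: for all maps `φ t` from `K_m (Z)` to
`K_m (A × Z)` which are the exterior products with positive multiples of the classes `D t`, the kernel
and the cokernel of the map `(z t) ↦ ∑ t, φ t (z t)` are killed by a positive integer. -/
def KunnethBounded (U : KData T) {J : Type} [Fintype J] (D : J → A.CH) (m : ℕ) : Prop :=
  ∀ φ : J → (U.KN m →+ U.KM m), (∀ t, U.IsProduct (D t) m (φ t)) →
    ∃ N : ℕ, 0 < N ∧ (∀ z : J → U.KN m, ∑ t, φ t (z t) = 0 → ∀ t, N • z t = 0) ∧
      ∀ y, ∃ z : J → U.KN m, N • y = ∑ t, φ t (z t)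

end

/-- `KGroupsReduce P q F`: for every abelian variety `A` as in `IsAbelian` there are finitely many
products `D t` of divisor classes on `A`, such that for every smooth projective variety `Z` of
dimension `d` over the field with `q ^ s` elements, whose Frobenius endomorphism satisfies polynomials
with the property `P`: for all `m` the Kunneth formula holds for `K_m (A × Z)` up to groups of bounded
exponent, and if `m ≥ dim A + d` then `K_m (A × Z)` is finitely generated if and only if `K_m (Z)` is
finitely generated. -/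
def KGroupsReduce (P : ℚ[X] → Prop) (q : ℕ) {I : Type} (F : I → ℤ[X]) : Prop :=
  ∀ (K : Type) [Field K] [CharZero K] (A : AbelianData K) (s : ℕ), IsAbelian A q s F →
    ∃ (J : Type) (_ : Fintype J) (c : J → ℕ) (D : J → A.CH), IsFamily A c D ∧
      ∀ T : RelData A, IsTheory P (q ^ s) T → T.IsPure (q ^ s) →
        ∀ (d : ℕ) (U : KData T), IsKTheory d U → (∀ m, KunnethBounded U D m) ∧
          ∀ m, A.dim + d ≤ m → (AddGroup.FG (U.KM m) ↔ AddGroup.FG (U.KN m))

end Pool.Agent.Q64.KG
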