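import Mathlib
import Pool.Agent.Q64.KG.Defs
import Pool.Agent.Q64.U.Thms

/-!
# Algebraic K-groups of the products with abelian varieties: proofs
-/

set_option autoImplicit false
set_option linter.unusedSectionVars false

namespace Pool.Agent.Q64.KG

open Module Polynomial Pool.Agent.Y156.L Pool.Agent.Q64.L Pool.Agent.Q64.U

/-- The hull of a power of a group. -/
theorem hull_pi {G : Type} [AddCommGroup G] {V : Type} [AddCommGroup V] [Module ℚ V]
    {W : Submodule ℚ V} {u : (ℕ → G) →+ V} (hu : IsHull G W u) {J : Type} [Fintype J] :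
    IsHull (J → G) (Submodule.pi Set.univ fun _ : J => W)
      ({ toFun := fun x t => u fun i => x i t
         map_zero' := by
          funext t
          exact u.map_zero
         map_add' := by
          intro x y
          funext t
          exact u.map_add (fun i => x i t) fun i => y i t } : (ℕ → J → G) →+ (J → V)) := by
  classical
  refine ⟨?_, ?_, ?_⟩
  · intro x
    rw [Submodule.mem_pi]
    exact fun t _ => hu.mem _
  · intro x hx
    have h1 : ∀ t, ∃ n : ℕ, 0 < n ∧ n • (fun i => x i t) = 0 := fun t =>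
      hu.kernel _ (congrFun hx t)
    choose n hn hn' using h1
    refine ⟨∏ t, n t, Finset.prod_pos fun t _ => hn t, ?_⟩
    funext i t
    obtain ⟨k, hk⟩ := Finset.dvd_prod_of_mem n (Finset.mem_univ t)
    have h2 := congrFun (hn' t) i
    have h3 : n t • x i t = 0 := h2
    change (∏ t, n t) • x i t = 0
    rw [hk, mul_comm, mul_smul, h3, smul_zero]
  · intro w hw
    rw [Submodule.mem_pi] at hw
    have h1 : ∀ t, ∃ (n : ℕ) (x : ℕ → G), 0 < n ∧ n • w t = u x := fun t =>
      hu.range _ (hw t (Set.mem_univ t))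
    choose n x hn hx using h1
    have h4 : ∀ t, ∃ k, ∏ t, n t = k * n t := fun t => by
      obtain ⟨k, hk⟩ := Finset.dvd_prod_of_mem n (Finset.mem_univ t)
      exact ⟨k, by rw [hk, mul_comm]⟩
    choose k hk using h4
    refine ⟨∏ t, n t, fun i t => k t • x t i, Finset.prod_pos fun t _ => hn t, ?_⟩
    funext t
    change (∏ t, n t) • w t = u fun i => k t • x t i
    rw [hk t, mul_smul, hx t, ← map_nsmul]
    rfl

/-- Finite generation and maps with bounded cokernel. -/
theorem fg_of_bounded {G G' : Type} [AddCommGroup G] [AddCommGroup G'] (hG : AddGroup.FG G)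
    (f : G →+ G') {N : ℕ} (h : ∀ y, ∃ x, N • y = f x)
    (hS : ∃ S : Finset G', ∀ y, ∃ s ∈ S, ∃ y', y = s + N • y') : AddGroup.FG G' := by
  classical
  obtain ⟨S, hS⟩ := hS
  obtain ⟨R, hR⟩ := hG.out
  refine ⟨⟨S ∪ R.image f, ?_⟩⟩
  rw [eq_top_iff]
  intro y _
  obtain ⟨s, hs, y', rfl⟩ := hS y
  obtain ⟨x, hx⟩ := h y'
  rw [hx]
  refine add_mem (AddSubgroup.subset_closure ?_) ?_
  · exact_mod_cast Finset.mem_union_left _ hs
  · have h1 : f x ∈ (AddSubgroup.closure (R : Set G)).map f := by
      rw [hR]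
      exact AddSubgroup.mem_map_of_mem f (AddSubgroup.mem_top x)
    rw [AddMonoidHom.map_closure] at h1
    refine AddSubgroup.closure_mono ?_ h1
    rw [← Finset.coe_image]
    exact_mod_cast Finset.subset_union_right

variable {P : ℚ[X] → Prop} {q : ℕ} (hq : 1 < q) {I : Type} {F : I → ℤ[X]} (hG : Good P q F)

include hq hG

/-- **K-groups.** -/
theorem kGroupsReduce : KGroupsReduce P q F := by
  intro K _ _ A s hA
  obtain ⟨J, hJ, c, D, E', hF, hdual, hQ, hmain⟩ := exists_classes hq hG hA
  refine ⟨J, hJ, c, D, hF, ?_⟩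
  intro T hT hpure d U hU
  -- the expansion
  have hexp : ∀ (m : ℕ) (w : T.M), w ∈ (⨆ j : ℤ, T.grM (2 * j - m) j) →
      w = ∑ t, T.times (D t) (T.pair (E' t) w) ∧
        ∀ t, T.pair (E' t) w ∈ (⨆ j : ℤ, T.grN (2 * j - m) j) := by
    intro m w hw
    refine Submodule.iSup_induction (fun j : ℤ => T.grM (2 * j - m) j)
      (motive := fun w => w = ∑ t, T.times (D t) (T.pair (E' t) w) ∧
        ∀ t, T.pair (E' t) w ∈ (⨆ j : ℤ, T.grN (2 * j - m) j)) hw ?_ ?_ ?_
    · intro j w hw
      refine ⟨(hmain T hT.rel hT.degree hT.eigenvalues _ j w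
        (genM_of_inv (hpure _ j w hw))).1, fun t => ?_⟩
      have h3 : T.pair (E' t) w ∈ T.grN (2 * j - m - 2 * c t) (j - c t) :=
        hT.rel.pair_mem (by have := hdual.le t; omega) (hdual.right t) hw
      have h4 : (2 * j - m - 2 * c t : ℤ) = 2 * (j - c t) - m := by ring
      rw [h4] at h3
      exact Submodule.mem_iSup_of_mem (p := fun j : ℤ => T.grN (2 * j - m) j) (j - c t) h3
    · refine ⟨?_, fun t => ?_⟩
      · simp
      · rw [map_zero]
        exact Submodule.zero_mem _
    · rintro a b ⟨ha, ha'⟩ ⟨hb, hb'⟩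
      refine ⟨?_, fun t => ?_⟩
      · conv_lhs => rw [ha, hb]
        rw [← Finset.sum_add_distrib]
        exact Finset.sum_congr rfl fun t _ => by rw [map_add, map_add]
      · rw [map_add]
        exact Submodule.add_mem _ (ha' t) (hb' t)
  have key : ∀ m, KunnethBounded U D m := by
    intro m φ hφ
    classical
    choose n hn hφ' using hφ
    have hn0 : ∀ t, (n t : ℚ) ≠ 0 := fun t => by exact_mod_cast (hn t).ne'
    let f : (J → U.KN m) →+ U.KM m :=
      ∑ t, (φ t).comp (Pi.evalAddMonoidHom (fun _ : J => U.KN m) t)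
    have hf : ∀ z, f z = ∑ t, φ t (z t) := fun z => by
      simp only [f, AddMonoidHom.finset_sum_apply, AddMonoidHom.comp_apply,
        Pi.evalAddMonoidHom_apply]
    let L : (J → T.N) →ₗ[ℚ] T.M :=
      ∑ t, (n t : ℚ) • (T.times (D t)).comp (LinearMap.proj t)
    have hL : ∀ v, L v = ∑ t, (n t : ℚ) • T.times (D t) (v t) := fun v => by
      simp only [L, LinearMap.sum_apply, LinearMap.smul_apply, LinearMap.comp_apply,
        LinearMap.proj_apply]
    obtain ⟨N, hN, h1, h2⟩ := bounded_of_hull (hull_pi (hU.hullN m) (J := J)) (hU.hullM m) f L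
      (by
        intro x
        rw [hL]
        have h3 : (fun i => f (x i)) = ∑ t, fun i => φ t (x i t) := by
          funext i
          rw [hf, Finset.sum_apply]
        rw [h3, map_sum]
        refine Finset.sum_congr rfl fun t _ => ?_
        rw [hφ' t, Nat.cast_smul_eq_nsmul]
        rfl)
      (by
        intro v _ hv
        funext l
        have h3 : T.pair (E' l) (L v) = (n l : ℚ) • v l := by
          rw [hL, map_sum, Finset.sum_eq_single l]
          · rw [map_smul, dualpair hT.rel hdual l l (v l), if_pos rfl]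
          · intro t _ ht
            rw [map_smul, dualpair hT.rel hdual t l (v t), if_neg ht, smul_zero]
          · intro h
            exact absurd (Finset.mem_univ l) h
        rw [hv, map_zero] at h3
        exact (smul_eq_zero.1 h3.symm).resolve_left (hn0 l))
      (by
        intro w hw
        obtain ⟨h3, h4⟩ := hexp m w hw
        refine ⟨fun t => (n t : ℚ)⁻¹ • T.pair (E' t) w, ?_, ?_⟩
        · rw [Submodule.mem_pi]
          exact fun t _ => Submodule.smul_mem _ _ (h4 t)
        · rw [hL]
          conv_rhs => rw [h3]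
          refine Finset.sum_congr rfl fun t _ => ?_
          rw [map_smul, smul_smul, mul_inv_cancel₀ (hn0 t), one_smul])
    refine ⟨N, hN, fun z hz t => congrFun (h1 z (by rw [hf, hz])) t, fun y => ?_⟩
    obtain ⟨z, hz⟩ := h2 y
    exact ⟨z, by rw [hz, hf]⟩
  refine ⟨key, fun m hm => ⟨?_, ?_⟩⟩
  · intro h
    obtain ⟨i, r, hir⟩ := hU.factor m
    have := h
    exact AddGroup.fg_of_surjective (f := r) fun z => ⟨i z, hir z⟩
  · intro h
    choose φ hφ using fun t => hU.product m (D t)
    obtain ⟨N, hN, -, h2⟩ := key m φ hφ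
    let f : (J → U.KN m) →+ U.KM m :=
      ∑ t, (φ t).comp (Pi.evalAddMonoidHom (fun _ : J => U.KN m) t)
    have hf : ∀ z, f z = ∑ t, φ t (z t) := fun z => by
      simp only [f, AddMonoidHom.finset_sum_apply, AddMonoidHom.comp_apply,
        Pi.evalAddMonoidHom_apply]
    have hfin : Module.Finite ℤ (U.KN m) := Module.Finite.iff_addGroup_fg.2 h
    have hpi : AddGroup.FG (J → U.KN m) := Module.Finite.iff_addGroup_fg.1 inferInstance
    refine fg_of_bounded hpi f (N := N) (fun y => ?_) (hU.finite m hm N hN)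
    obtain ⟨z, hz⟩ := h2 y
    exact ⟨z, by rw [hz, hf]⟩

end Pool.Agent.Q64.KG
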